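import Pool.Agent.Work.MP_bd4052_lc_helper82.Done

set_option autoImplicit false

namespace Pool.Agent.Results.MP_bd4052_lc.OneLayerPolyTime

open Pool.Agent.Work.MP_bd4052_lc Pool.Agent.Work.TMLib

open Classical in
/-- One-layer simple foldability of rectangular maps with horizontal, vertical and diagonal
creases is decidable in polynomial time. -/
theorem result : PolyTime (fun m : {m : PaperMap // m.Valid} => encMap m.1)
    (fun b : Bool => [b]) (fun m => decide (SimplyFoldable m.1)) := stmt_Final

end Pool.Agent.Results.MP_bd4052_lc.OneLayerPolyTime
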